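import Pool.Agent.H11.NX.Targets

/-!
# Board nx_modules: module LIN
-/

set_option autoImplicit false

open Equiv (Perm)

namespace Pool.Agent.H74.NX.LIN

open Pool.Agent.H11.NX

theorem pf_lin (hLA : T_LA) : T_LIN := by
  intro K _ n r m g hr hrK hg hm hn
  have hr2 := hr.two_le
  have hn0 : n ≠ 0 := by
    rintro rfl
    have : 0 < r * r * m := by positivity
    omega
  obtain ⟨c, hc1, hc2⟩ := Matrix.SpecialLinearGroup.mem_center_iff.1 hg
  have hc0 : c ≠ 0 := by
    rintro rfl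
    rw [Fintype.card_fin, zero_pow hn0] at hc1
    exact zero_ne_one hc1
  have hT : ∀ v, ((Matrix.toLin' (g : Matrix (Fin n) (Fin n) K)) ^ r) v = c • v := by
    intro v
    have h1 : (Matrix.toLin' (g : Matrix (Fin n) (Fin n) K)) ^ r =
        Matrix.toLin' ((g : Matrix (Fin n) (Fin n) K) ^ r) := by
      rw [Matrix.toLin'_pow]
    have h2 : (g : Matrix (Fin n) (Fin n) K) ^ r = Matrix.scalar (Fin n) c := by
      rw [hc2, Matrix.SpecialLinearGroup.coe_pow]
    rw [h1, h2, Matrix.toLin'_apply, Matrix.scalar_apply, ← Matrix.smul_one_eq_diagonal,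
      Matrix.smul_mulVec, Matrix.one_mulVec]
  obtain ⟨θ₀, hθ, hf⟩ := hLA K (Fin n → K) (Matrix.toLin' (g : Matrix (Fin n) (Fin n) K)) c r m
    hr hrK hc0 hT (by rw [Module.finrank_fin_fun]; exact hn)
  let θ₁ : alternatingGroup (Fin m) →* ((Fin n → K) ≃ₗ[K] (Fin n → K)) :=
    θ₀.comp (alternatingGroup (Fin m)).subtype
  have hdet : ∀ σ, LinearEquiv.det (θ₁ σ) = 1 := by
    intro σ
    have h1 := Abelianization.commutator_subset_ker (LinearEquiv.det.comp θ₁)
    have h2 : commutator (alternatingGroup (Fin m)) = ⊤ :=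
      commutator_alternatingGroup_eq_top (by rw [Nat.card_eq_fintype_card, Fintype.card_fin]; exact hm)
    have h3 : σ ∈ (LinearEquiv.det.comp θ₁).ker := h1 (by rw [h2]; trivial)
    exact h3
  have hdet' : ∀ σ, (LinearMap.toMatrix' ((θ₁ σ : (Fin n → K) ≃ₗ[K] (Fin n → K)) :
      (Fin n → K) →ₗ[K] (Fin n → K))).det = 1 := by
    intro σ
    rw [LinearMap.det_toMatrix', ← LinearEquiv.coe_det, hdet σ]
    rfl
  let θ : alternatingGroup (Fin m) →* Matrix.SpecialLinearGroup (Fin n) K :=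
    MonoidHom.mk' (fun σ => ⟨LinearMap.toMatrix' ((θ₁ σ : (Fin n → K) ≃ₗ[K] (Fin n → K)) :
      (Fin n → K) →ₗ[K] (Fin n → K)), hdet' σ⟩) (by
      intro σ τ
      apply Subtype.ext
      change LinearMap.toMatrix' _ = LinearMap.toMatrix' _ * LinearMap.toMatrix' _
      rw [← LinearMap.toMatrix'_mul, map_mul]
      rfl)
  have hval : ∀ σ, (θ σ : Matrix (Fin n) (Fin n) K) =
      LinearMap.toMatrix' ((θ₁ σ : (Fin n → K) ≃ₗ[K] (Fin n → K)) :
      (Fin n → K) →ₗ[K] (Fin n → K)) := fun _ => rfl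
  refine ⟨θ, ?_, ?_⟩
  · intro σ
    apply Subtype.ext
    rw [Matrix.SpecialLinearGroup.coe_mul, Matrix.SpecialLinearGroup.coe_mul, hval]
    apply Matrix.toLin'.injective
    rw [Matrix.toLin'_mul, Matrix.toLin'_mul, Matrix.toLin'_toMatrix']
    apply LinearMap.ext
    intro v
    exact hθ σ v
  · intro σ hσ
    obtain ⟨a, _, ha⟩ := Matrix.SpecialLinearGroup.mem_center_iff.1 hσ
    have h1 : (σ : Perm (Fin m)) = 1 := by
      refine hf σ a (fun v => ?_)
      have h2 : (θ₀ (σ : Perm (Fin m))) v = Matrix.toLin' (θ σ : Matrix (Fin n) (Fin n) K) v := by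
        rw [hval, Matrix.toLin'_toMatrix']
        rfl
      rw [h2, ← ha, Matrix.toLin'_apply, Matrix.scalar_apply, ← Matrix.smul_one_eq_diagonal,
        Matrix.smul_mulVec, Matrix.one_mulVec]
    exact Subtype.ext h1

end Pool.Agent.H74.NX.LIN
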