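import Pool.Agent.H11.NX.Targets
import Pool.Agent.H11.NS.Targets

/-!
# Board nx_modules: module CAL
-/

set_option autoImplicit false

open Equiv (Perm)

namespace Pool.Agent.H74.NX.CAL

open Pool.Agent.H11.NX

theorem pf_cal (hAI : Pool.Agent.H11.NS.T_AI) : T_CAL := by
  intro G _ hC g H hidx hsol
  have hfi : H.FiniteIndex := ⟨hidx⟩
  have hSn : H.normalCore.Normal := Subgroup.normalCore_normal H
  have hSi : H.normalCore.FiniteIndex := inferInstance
  have hSs : Group.IsSolvable H.normalCore := by
    have _ : Group.IsSolvable H := hsol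
    exact Group.isSolvable_of_isSolvable_injective
      (f := Subgroup.inclusion (Subgroup.normalCore_le H)) (Subgroup.inclusion_injective _)
  generalize H.normalCore = S at hSn hSi hSs
  have ht0 : S.index ≠ 0 := hSi.index_ne_zero
  obtain ⟨ψ, hψ, hc⟩ := hC {g} (2 * S.index + 5)
  let ψ' : alternatingGroup (Fin (2 * S.index + 5)) →* Subgroup.centralizer ({g} : Set G) :=
    ψ.codRestrict _ (fun σ => by
      rw [Subgroup.mem_centralizer_singleton_iff]
      exact (hc g (Finset.mem_singleton_self g) σ).symm)
  have hψ' : Function.Injective ψ' := by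
    intro a b hab
    exact hψ (congrArg Subtype.val hab)
  have hn : (S.comap ψ').Normal := inferInstance
  have hs : Group.IsSolvable (S.comap ψ') := by
    have hinj : Function.Injective (ψ'.subgroupComap S) := by
      intro a b hab
      apply Subtype.ext
      apply hψ'
      exact congrArg Subtype.val hab
    exact Group.isSolvable_of_isSolvable_injective hinj
  have hd : (S.comap ψ').index ∣ S.index := by
    rw [Subgroup.index_comap]
    exact Subgroup.relIndex_dvd_index_of_normal S ψ'.range
  have hi0 : (S.comap ψ').index ≠ 0 := fun h0 => ht0 (Nat.eq_zero_of_zero_dvd (h0 ▸ hd))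
  have hle : (S.comap ψ').index ≤ S.index := Nat.le_of_dvd (Nat.pos_of_ne_zero ht0) hd
  have h1 := hAI (alternatingGroup (Fin (2 * S.index + 5))) (Fin (2 * S.index + 5))
    (alternatingGroup (Fin (2 * S.index + 5))).subtype (by rw [Fintype.card_fin]; omega)
    (fun ρ hρ => by
      rw [Subgroup.range_subtype]
      exact hρ.mem_alternatingGroup)
    (S.comap ψ') hn hs hi0
  rw [Fintype.card_fin] at h1
  have h2 := Nat.self_le_factorial (2 * S.index + 5)
  omega

end Pool.Agent.H74.NX.CAL
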